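import Pool.Agent.TH996.HW.HitLe
import Pool.Agent.TH996.HW.Flow
import Pool.Agent.TH996.HW.Scale

/-!
# MP_b213bc_pr: no Tracy–Widom scaling for Howitt–Warren flows with finite edge speeds

For every `β` and every finite measure `ν` on `[0,1]` with `∫ ν(dq)/(q(1-q)) < ∞` there is `δ > 0`
such that every Howitt–Warren flow `K` with drift `β` and characteristic measure `ν` satisfies
`P(K_{0,t}(x₀,[a,a+1]) = 0) ≥ δ` for all `t ≥ 1`, `a`, `x₀`. Hence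
`(-log K_{0,t}(0,[tx,tx+1]) - c t)/(σ t^{1/3})` does not converge in distribution to any
probability law on `ℝ`, for any `x`, `c` and `σ ≠ 0`. There are such `ν` with `ν((0,1)) > 0`.
-/

open MeasureTheory ProbabilityTheory Filter
open scoped NNReal ENNReal Topology

namespace Pool.Agent.Results.MP_b213bc_pr.NoScalingFiniteSpeed

open Pool.Agent.TH996.HW

theorem main (β : ℝ) (ν : Measure ℝ) [IsFiniteMeasure ν] (h01 : ν (Set.Icc 0 1)ᶜ = 0)
    (hint : ∫⁻ q, (ENNReal.ofReal (q * (1 - q)))⁻¹ ∂ν < ∞) :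
    ∃ δ : ℝ, 0 < δ ∧ ∀ (Ω : Type) [MeasurableSpace Ω] (P : Measure Ω) [IsProbabilityMeasure P]
      (K : ℝ → ℝ → Ω → ℝ → Measure ℝ), IsHWFlow β ν P K →
      (∀ t a x₀ : ℝ, 1 ≤ t → δ ≤ P.real {ω | K 0 t ω x₀ (Set.Icc a (a + 1)) = 0}) ∧
      ∀ x c σ : ℝ, σ ≠ 0 → ∀ μ : Measure ℝ, IsProbabilityMeasure μ →
        ¬ ScalesTo P (fun t ω => K 0 t ω 0 (Set.Icc (t * x) (t * x + 1))) c σ μ := by
  have hν : GoodNu ν := ⟨inferInstance, h01, hint⟩
  obtain ⟨δ, hδ, H⟩ := hit_le hν β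
  refine ⟨δ, hδ, fun Ω _ P _ K hK => ?_⟩
  have key : ∀ t a x₀ : ℝ, 1 ≤ t → δ ≤ P.real {ω | K 0 t ω x₀ (Set.Icc a (a + 1)) = 0} :=
    fun t a x₀ ht => flow_hit hδ H hK t a x₀ ht
  refine ⟨key, fun x c σ hσ μ hμ hs => ?_⟩
  have hκ : ∀ t : ℝ, 0 ≤ t → Measurable (fun ω => K 0 t ω 0 (Set.Icc (t * x) (t * x + 1))) :=
    fun t ht => (hK.meas 0 t ht _ measurableSet_Icc).comp (measurable_id.prodMk measurable_const)
  have h0 := scales_hit hκ hσ hs
  have h1 : Tendsto (fun t : ℝ => P.real {ω | K 0 t ω 0 (Set.Icc (t * x) (t * x + 1)) = 0})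
      atTop (𝓝 0) := by
    have := (ENNReal.tendsto_toReal ENNReal.zero_ne_top).comp h0
    simpa [Measure.real, Function.comp_def] using this
  have h2 : ∀ᶠ t : ℝ in atTop,
      δ ≤ P.real {ω | K 0 t ω 0 (Set.Icc (t * x) (t * x + 1)) = 0} := by
    filter_upwards [eventually_ge_atTop (1 : ℝ)] with t ht
    exact key t (t * x) 0 ht
  have h3 := ge_of_tendsto h1 h2
  linarith

/-- Howitt–Warren flows with finite edge speeds have no scaling limit; there are characteristic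
measures with finite edge speeds and positive mass on `(0,1)`. -/
theorem result :
    (∀ (β : ℝ) (ν : Measure ℝ) [IsFiniteMeasure ν], ν (Set.Icc 0 1)ᶜ = 0 →
      ∫⁻ q, (ENNReal.ofReal (q * (1 - q)))⁻¹ ∂ν < ∞ →
      ∃ δ : ℝ, 0 < δ ∧ ∀ (Ω : Type) [MeasurableSpace Ω] (P : Measure Ω) [IsProbabilityMeasure P]
        (K : ℝ → ℝ → Ω → ℝ → Measure ℝ), IsHWFlow β ν P K →
        (∀ t a x₀ : ℝ, 1 ≤ t → δ ≤ P.real {ω | K 0 t ω x₀ (Set.Icc a (a + 1)) = 0}) ∧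
        ∀ x c σ : ℝ, σ ≠ 0 → ∀ μ : Measure ℝ, IsProbabilityMeasure μ →
          ¬ ScalesTo P (fun t ω => K 0 t ω 0 (Set.Icc (t * x) (t * x + 1))) c σ μ) ∧
    ∃ ν : Measure ℝ, IsFiniteMeasure ν ∧ ν (Set.Icc 0 1)ᶜ = 0 ∧ 0 < ν (Set.Ioo 0 1) ∧
      ∫⁻ q, (ENNReal.ofReal (q * (1 - q)))⁻¹ ∂ν < ∞ := by
  refine ⟨fun β ν _ h01 hint => main β ν h01 hint, Measure.dirac (1 / 2), inferInstance, ?_, ?_, ?_⟩
  · rw [Measure.dirac_apply' _ measurableSet_Icc.compl, Set.indicator_of_notMem]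
    intro h; exact h ⟨by norm_num, by norm_num⟩
  · rw [Measure.dirac_apply' _ measurableSet_Ioo, Set.indicator_of_mem]
    · simp
    · exact ⟨by norm_num, by norm_num⟩
  · rw [lintegral_dirac, ENNReal.inv_lt_top, ENNReal.ofReal_pos]
    norm_num

end Pool.Agent.Results.MP_b213bc_pr.NoScalingFiniteSpeed
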